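import Mathlib
import Pool.Agent.Lib_helper28.PM.Main

/-!
# Perfect matchings of a finite elementary abelian 2-group with prescribed sums
-/

set_option autoImplicit false

namespace Pool.Agent.Results.MP_9e4f68_co.PerfectMatchingSums

/-- `M` is a perfect matching of the finite set `V`: a set of two-element subsets of `V` such that
every element of `V` is in exactly one of them. -/
def IsPerfectMatching {V : Type} (M : Finset (Finset V)) : Prop :=
  (∀ P ∈ M, P.card = 2) ∧ ∀ x : V, ∃! P, P ∈ M ∧ x ∈ P

/-- The list `v` is realised by the matching `M`: the pairs of `M` can be indexed by the indices of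
the list such that the sum of the two elements of the pair with the index `i` is `v i`. -/
def Realises {V ι : Type} [AddCommGroup V] (M : Finset (Finset V)) (v : ι → V) : Prop :=
  ∃ e : ι ≃ {P // P ∈ M}, ∀ i, ∑ x ∈ (e i : Finset V), x = v i

section Main

variable {V : Type} [AddCommGroup V] [Fintype V]

/-- A group of exponent two is isomorphic to a power of the group of order two. -/
theorem exists_equiv (h2 : ∀ x : V, x + x = 0) :
    ∃ (s : ℕ) (_ : V ≃+ (Fin s → ZMod 2)), Fintype.card V = 2 ^ s := by
  classical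
  let _ : Module (ZMod 2) V := AddCommGroup.zmodModule (n := 2) (fun x => by
    rw [two_nsmul]
    exact h2 x)
  have hfin : Module.Finite (ZMod 2) V := Module.Finite.of_finite
  let b := Module.finBasis (ZMod 2) V
  refine ⟨Module.finrank (ZMod 2) V, b.equivFun.toAddEquiv, ?_⟩
  rw [Fintype.card_congr b.equivFun.toEquiv, Fintype.card_fun, Fintype.card_fin, ZMod.card]

/-- The existence of the pairs, in the form of two functions. -/
theorem exists_pairs (h2 : ∀ x : V, x + x = 0) (h4 : 4 ≤ Fintype.card V) {ι : Type} [Fintype ι]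
    (hι : 2 * Fintype.card ι = Fintype.card V) (v : ι → V) (hv : ∀ i, v i ≠ 0)
    (hs : ∑ i, v i = 0) :
    ∃ a b : ι → V, Function.Bijective (Sum.elim a b) ∧ ∀ i, a i + b i = v i := by
  classical
  obtain ⟨s, e, hcard⟩ := exists_equiv h2
  obtain ⟨k, rfl⟩ : ∃ k, s = k + 1 := by
    rcases s with _ | k
    · rw [hcard] at h4
      norm_num at h4
    · exact ⟨k, rfl⟩
  have hk : 1 ≤ k := by
    by_contra h
    have h0 : k = 0 := by omega
    subst h0
    rw [hcard] at h4
    norm_num at h4
  have hcι : Fintype.card ι = 2 ^ k := by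
    rw [hcard, pow_succ'] at hι
    omega
  let f : Fin (2 ^ k) ≃ ι := (Fintype.equivFinOfCardEq hcι).symm
  obtain ⟨a, b, hab, hv'⟩ := H28PM.main k hk (fun j => e (v (f j)))
    (fun j h => hv (f j) (by rw [← e.map_zero] at h; exact e.injective h))
    (by
      rw [← map_sum, Fintype.sum_equiv f (fun j => v (f j)) v (fun _ => rfl), hs, map_zero])
  refine ⟨fun i => e.symm (a (f.symm i)), fun i => e.symm (b (f.symm i)), ?_, ?_⟩
  · have h1 : Sum.elim (fun i => e.symm (a (f.symm i))) (fun i => e.symm (b (f.symm i))) =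
        e.symm ∘ Sum.elim a b ∘ (Equiv.sumCongr f.symm f.symm) := by
      funext x
      rcases x with i | i <;> rfl
    rw [h1]
    exact e.symm.bijective.comp (hab.comp (Equiv.bijective _))
  · intro i
    rw [← map_add, hv', Equiv.apply_symm_apply, AddEquiv.symm_apply_apply]

/-- The sum of all elements is zero. -/
theorem sum_univ (h2 : ∀ x : V, x + x = 0) (h4 : 4 ≤ Fintype.card V) : ∑ x : V, x = 0 := by
  classical
  obtain ⟨s, e, hcard⟩ := exists_equiv h2
  obtain ⟨k, rfl⟩ : ∃ k, s = k + 2 := by
    rcases s with _ | _ | k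
    · rw [hcard] at h4
      norm_num at h4
    · rw [hcard] at h4
      norm_num at h4
    · exact ⟨k, rfl⟩
  obtain ⟨g, hg⟩ : ∃ g : V, g ≠ 0 := by
    have h1 : 1 < Fintype.card V := by omega
    obtain ⟨x, y, hxy⟩ := Fintype.exists_pair_of_one_lt_card h1
    by_cases hx : x = 0
    · exact ⟨y, fun hy => hxy (hx.trans hy.symm)⟩
    · exact ⟨x, hx⟩
  have hev : ∑ _i : Fin (2 ^ (k + 1)), g = 0 := by
    rw [Finset.sum_const, Finset.card_univ, Fintype.card_fin, pow_succ, mul_nsmul, two_nsmul, h2]
  obtain ⟨a, b, hab, hv⟩ := exists_pairs h2 h4 (ι := Fin (2 ^ (k + 1)))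
    (by rw [Fintype.card_fin, hcard]; ring) (fun _ => g) (fun _ => hg) hev
  have h5 : ∑ y, Sum.elim a b y = ∑ x : V, x :=
    Fintype.sum_equiv (Equiv.ofBijective _ hab) _ _ (fun _ => rfl)
  rw [← h5, Fintype.sum_sum_type]
  simp only [Sum.elim_inl, Sum.elim_inr]
  rw [← Finset.sum_add_distrib, Finset.sum_congr rfl fun i _ => hv i, hev]

end Main

/-- Let `V` be a finite elementary abelian 2-group of order at least four (that is, `F_2 ^ s` with
`s ≥ 2`) and `v` a list of `|V| / 2` elements of `V`. There is a perfect matching of `V` which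
realises `v` if and only if all elements of the list are nonzero and their sum is zero. -/
theorem result (V : Type) [AddCommGroup V] [Fintype V] (h2 : ∀ x : V, x + x = 0)
    (h4 : 4 ≤ Fintype.card V) (ι : Type) [Fintype ι]
    (hι : 2 * Fintype.card ι = Fintype.card V) (v : ι → V) :
    (∃ M : Finset (Finset V), IsPerfectMatching M ∧ Realises M v) ↔
      (∀ i, v i ≠ 0) ∧ ∑ i, v i = 0 := by
  classical
  constructor
  · rintro ⟨M, ⟨hM2, hMx⟩, e, he⟩
    refine ⟨fun i h => ?_, ?_⟩
    · obtain ⟨x, y, hxy, hP⟩ := Finset.card_eq_two.mp (hM2 _ (e i).2)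
      have h1 := he i
      rw [hP, Finset.sum_pair hxy, h] at h1
      apply hxy
      have h3 := h2 y
      rw [← h3] at h1
      exact add_right_cancel h1
    · have h1 : ∑ i, v i = ∑ P : {P // P ∈ M}, ∑ x ∈ (P : Finset V), x := by
        rw [← Equiv.sum_comp e]
        exact Finset.sum_congr rfl fun i _ => (he i).symm
      rw [h1, Finset.sum_coe_sort M (fun P => ∑ x ∈ P, x), ← Finset.sum_biUnion]
      · have h3 : M.biUnion id = Finset.univ := by
          refine Finset.eq_univ_of_forall fun x => ?_
          obtain ⟨P, ⟨hP, hx⟩, -⟩ := hMx x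
          exact Finset.mem_biUnion.mpr ⟨P, hP, hx⟩
        change ∑ x ∈ M.biUnion id, x = 0
        rw [h3]
        exact sum_univ h2 h4
      · intro P hP Q hQ hPQ
        change Disjoint P Q
        rw [Finset.disjoint_left]
        intro x hx hx'
        exact hPQ ((hMx x).unique ⟨hP, hx⟩ ⟨hQ, hx'⟩)
  · rintro ⟨hv, hs⟩
    obtain ⟨a, b, hab, hv'⟩ := exists_pairs h2 h4 hι v hv hs
    have hne : ∀ i, a i ≠ b i := fun i h => by
      have h1 := hab.injective (a₁ := Sum.inl i) (a₂ := Sum.inr i) h
      exact absurd h1 Sum.inl_ne_inr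
    have hinj : Function.Injective fun i => ({a i, b i} : Finset V) := by
      intro i j hij
      have hij' : ({a i, b i} : Finset V) = {a j, b j} := hij
      have h1 : a i ∈ ({a j, b j} : Finset V) := by
        rw [← hij']
        exact Finset.mem_insert_self _ _
      rcases Finset.mem_insert.mp h1 with h3 | h3
      · exact Sum.inl_injective (hab.injective (a₁ := Sum.inl i) (a₂ := Sum.inl j) h3)
      · have h5 := hab.injective (a₁ := Sum.inl i) (a₂ := Sum.inr j) (Finset.mem_singleton.mp h3)
        exact absurd h5 Sum.inl_ne_inr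
    let M : Finset (Finset V) := Finset.univ.image fun i => ({a i, b i} : Finset V)
    refine ⟨M, ⟨?_, ?_⟩, ?_⟩
    · intro P hP
      obtain ⟨i, -, rfl⟩ := Finset.mem_image.mp hP
      exact Finset.card_pair (hne i)
    · intro x
      obtain ⟨y, hy⟩ := hab.surjective x
      have key : ∀ i j, x ∈ ({a i, b i} : Finset V) → x ∈ ({a j, b j} : Finset V) → i = j := by
        intro i j hi hj
        rcases Finset.mem_insert.mp hi with h1 | h1 <;> rcases Finset.mem_insert.mp hj with h3 | h3
        · exact Sum.inl_injective (hab.injective (a₁ := Sum.inl i) (a₂ := Sum.inl j)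
            (h1.symm.trans h3))
        · exact absurd (hab.injective (a₁ := Sum.inl i) (a₂ := Sum.inr j)
            (h1.symm.trans (Finset.mem_singleton.mp h3))) Sum.inl_ne_inr
        · exact absurd (hab.injective (a₁ := Sum.inr i) (a₂ := Sum.inl j)
            ((Finset.mem_singleton.mp h1).symm.trans h3)) Sum.inr_ne_inl
        · exact Sum.inr_injective (hab.injective (a₁ := Sum.inr i) (a₂ := Sum.inr j)
            ((Finset.mem_singleton.mp h1).symm.trans (Finset.mem_singleton.mp h3)))
      obtain ⟨i, hi⟩ : ∃ i, x ∈ ({a i, b i} : Finset V) := by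
        rcases y with i | i
        · exact ⟨i, by rw [← hy]; exact Finset.mem_insert_self _ _⟩
        · exact ⟨i, by
            rw [← hy]
            exact Finset.mem_insert_of_mem (Finset.mem_singleton_self _)⟩
      refine ⟨{a i, b i}, ⟨Finset.mem_image.mpr ⟨i, Finset.mem_univ _, rfl⟩, hi⟩, ?_⟩
      rintro Q ⟨hQ, hx⟩
      obtain ⟨j, -, rfl⟩ := Finset.mem_image.mp hQ
      rw [key i j hi hx]
    · let e0 : ι → {P // P ∈ M} := fun i =>
        ⟨{a i, b i}, Finset.mem_image.mpr ⟨i, Finset.mem_univ _, rfl⟩⟩
      have he0 : Function.Bijective e0 := by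
        constructor
        · intro i j hij
          exact hinj (congrArg Subtype.val hij)
        · rintro ⟨P, hP⟩
          obtain ⟨i, -, rfl⟩ := Finset.mem_image.mp hP
          exact ⟨i, rfl⟩
      refine ⟨Equiv.ofBijective e0 he0, fun i => ?_⟩
      change ∑ x ∈ ({a i, b i} : Finset V), x = v i
      rw [Finset.sum_pair (hne i)]
      exact hv' i

end Pool.Agent.Results.MP_9e4f68_co.PerfectMatchingSums
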